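import Mathlib

/-!
Toda primes (MP_2f389f_nt): a positive integer with at most one Toda prime has at least 100
distinct prime factors and is at least `10 ^ 269`.
-/

namespace Pool.Agent.Results.MP_2f389f_nt.ManyPrimeFactors

/-- `p` is a Toda prime of `n`: an odd prime with `(p - 1) ∣ 4 n` and `p` coprime to
`4 n / (p - 1)`. -/
def IsToda (n p : ℕ) : Prop :=
  p.Prime ∧ p ≠ 2 ∧ (p - 1) ∣ 4 * n ∧ Nat.Coprime p (4 * n / (p - 1))

/-- Trial division by all numbers below `b`, for numbers below `b * b`. -/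
def chk (b q : ℕ) : Bool :=
  decide (2 < q) && decide (q < b * b) && (List.range b).all (fun d => decide (d < 2) ||
    decide (q ≤ d) || decide (q % d ≠ 0))

theorem chk_sound {b q : ℕ} (h : chk b q = true) : q.Prime ∧ q ≠ 2 := by
  simp only [chk, Bool.and_eq_true, decide_eq_true_eq, List.all_eq_true, List.mem_range,
    Bool.or_eq_true] at h
  obtain ⟨⟨h2, hb⟩, ht⟩ := h
  refine ⟨?_, by omega⟩
  by_contra hq
  have h1 := Nat.minFac_sq_le_self (by omega : 0 < q) hq
  have h3 : q.minFac < b := by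
    by_contra h4
    push Not at h4
    have : b * b ≤ q.minFac ^ 2 := by nlinarith
    omega
  have h5 := (Nat.minFac_prime (by omega : q ≠ 1)).two_le
  rcases ht _ h3 with (h | h) | h
  · omega
  · nlinarith
  · exact h (Nat.mod_eq_zero_of_dvd (Nat.minFac_dvd q))

/-- Run through a list, multiplying `m` by every `q ≠ p0` with `(q - 1) ∣ 4 m`. -/
def go (p0 : ℕ) : List ℕ → ℕ → ℕ → ℕ × ℕ
  | [], m, c => (m, c)
  | q :: l, m, c =>
    if q ≠ p0 ∧ (4 * m) % (q - 1) = 0 then go p0 l (m * q) (c + 1) else go p0 l m c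

theorem go_congr {p0 p1 : ℕ} : ∀ (l : List ℕ) (m c : ℕ), (∀ q ∈ l, q ≠ p0) → (∀ q ∈ l, q ≠ p1) →
    go p0 l m c = go p1 l m c
  | [], m, c, _, _ => rfl
  | q :: l, m, c, h0, h1 => by
    have e0 : q ≠ p0 := h0 q (by simp)
    have e1 : q ≠ p1 := h1 q (by simp)
    simp only [go, ne_eq, e0, e1, not_false_eq_true, true_and]
    rw [go_congr l (m * q) (c + 1) (fun q hq => h0 q (by simp [hq])) (fun q hq => h1 q (by simp [hq])),
      go_congr l m c (fun q hq => h0 q (by simp [hq])) (fun q hq => h1 q (by simp [hq]))]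

theorem go_sound {n p0 : ℕ}
    (H : ∀ p : ℕ, p.Prime → p ≠ 2 → p ≠ p0 → (p - 1) ∣ 4 * n → p ∣ n) :
    ∀ (l : List ℕ) (m c : ℕ), (∀ q ∈ l, q.Prime ∧ q ≠ 2) → l.Nodup → (∀ q ∈ l, ¬ q ∣ m) → m ≠ 0 →
      m ∣ n → m.primeFactors.card = c →
      (go p0 l m c).1 ∣ n ∧ (go p0 l m c).1 ≠ 0 ∧
        (go p0 l m c).1.primeFactors.card = (go p0 l m c).2
  | [], m, c, _, _, _, h0, h1, h2 => ⟨h1, h0, h2⟩
  | q :: l, m, c, hp, hnd, hm, h0, h1, h2 => by
    have hq := hp q (by simp)
    have hqm := hm q (by simp)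
    have hnd' := List.nodup_cons.1 hnd
    unfold go
    split_ifs with h
    · have hdvd : (q - 1) ∣ 4 * n :=
        (Nat.dvd_of_mod_eq_zero h.2).trans (Nat.mul_dvd_mul_left 4 h1)
      have hqn : q ∣ n := H q hq.1 hq.2 h.1 hdvd
      have hcop : Nat.Coprime m q := ((Nat.Prime.coprime_iff_not_dvd hq.1).2 hqm).symm
      refine go_sound H l (m * q) (c + 1) (fun q' h' => hp q' (by simp [h'])) hnd'.2 ?_
        (Nat.mul_ne_zero h0 hq.1.ne_zero) (hcop.mul_dvd_of_dvd_of_dvd h1 hqn) ?_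
      · intro q' h' hd
        have hq' := hp q' (by simp [h'])
        rcases (Nat.Prime.dvd_mul hq'.1).1 hd with hd | hd
        · exact hm q' (by simp [h']) hd
        · have := (Nat.prime_dvd_prime_iff_eq hq'.1 hq.1).1 hd
          exact hnd'.1 (this ▸ h')
      · rw [hcop.primeFactors_mul, Finset.card_union_of_disjoint hcop.disjoint_primeFactors, h2,
          hq.1.primeFactors, Finset.card_singleton]
    · exact go_sound H l m c (fun q' h' => hp q' (by simp [h'])) hnd'.2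
        (fun q' h' => hm q' (by simp [h'])) h0 h1 h2

theorem key {n p0 K B : ℕ} (hn : 0 < n)
    (H : ∀ p : ℕ, p.Prime → p ≠ 2 → p ≠ p0 → (p - 1) ∣ 4 * n → p ∣ n) (l : List ℕ)
    (hp : ∀ q ∈ l, q.Prime ∧ q ≠ 2) (hnd : l.Nodup)
    (h : B ≤ (go p0 l 1 0).1 ∧ K ≤ (go p0 l 1 0).2) : B ≤ n ∧ K ≤ n.primeFactors.card := by
  obtain ⟨h1, h2, h3⟩ := go_sound H l 1 0 hp hnd
    (fun q hq hd => (hp q hq).1.one_lt.ne' (Nat.dvd_one.1 hd)) one_ne_zero (one_dvd n) (by simp)
  refine ⟨h.1.trans (Nat.le_of_dvd hn h1), ?_⟩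
  rw [← h3] at h
  exact h.2.trans (Finset.card_le_card (Nat.primeFactors_mono h1 hn.ne'))

/-- the first 100 primes forced when no prime is excepted -/
def listMain : List ℕ :=
  [3, 5, 7, 11, 13, 23, 29, 31, 43, 47, 53, 59, 61, 67, 71, 79, 107, 131, 139, 157, 173, 211,
   263, 269, 277, 283, 311, 317, 331, 347, 349, 367, 373, 421, 431, 461, 463, 547, 557, 599,
   643, 659, 661, 683, 691, 709, 733, 743, 787, 827, 853, 859, 863, 911, 941, 947, 967, 1013,
   1039, 1061, 1093, 1109, 1181, 1223, 1277, 1291, 1303, 1319, 1367, 1381, 1427, 1487, 1493,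
   1499, 1571, 1579, 1613, 1663, 1669, 1699, 1709, 1741, 1823, 1831, 1847, 1861, 1867, 1877,
   1933, 1979, 1987, 2003, 2011, 2027, 2069, 2083, 2111, 2131, 2141, 2203]

/-- 100 primes forced when only 3 is excepted -/
def listThree : List ℕ :=
  [5, 11, 23, 47, 461, 941, 1013, 2027, 2069, 2531, 4139, 5171, 9221, 10343, 18443, 20261,
   36887, 41381, 82763, 82781, 86573, 89189, 103421, 103511, 106031, 111431, 165527, 216431,
   222863, 232853, 233267, 237821, 381077, 405221, 442271, 455093, 455291, 476111, 512579,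
   810443, 811493, 910583, 951557, 952691, 972431, 1620887, 1622987, 1623029, 1733549,
   1783781, 1821167, 1867973, 1905383, 1945331, 2068421, 2120621, 2190107, 2228711, 2332661,
   2378891, 3807053, 3810767, 4338011, 4657061, 4756421, 4757783, 5125781, 5233559, 5472023,
   6934757, 7614107, 7614197, 7621541, 7964717, 8383589, 8948519, 9101861, 9105911, 9344471,
   9517631, 9532331, 9538091, 9543623, 9810791, 10245533, 10251653, 10256621, 10263749,
   10469141, 10944047, 11386211, 11667911, 12257411, 12806861, 15243083, 16208861, 18203723,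
   19035491, 19064663, 19074071]

/-- 100 primes forced when only 5 is excepted -/
def listFive : List ℕ :=
  [3, 7, 13, 29, 43, 53, 59, 79, 107, 157, 173, 317, 347, 349, 547, 643, 709, 743, 827, 1039,
   1093, 1487, 1499, 2083, 2213, 2237, 2423, 2437, 2837, 2999, 3319, 3613, 4157, 4373, 4397,
   4583, 4603, 4957, 5279, 6163, 6637, 6709, 7717, 8243, 8269, 8747, 8923, 9203, 9323, 9749,
   10267, 10559, 10739, 11579, 12413, 14533, 14879, 16487, 16693, 17989, 18149, 18413, 19319,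
   19853, 20533, 21503, 23159, 24943, 25253, 26557, 27067, 27967, 29077, 29759, 30103, 30869,
   30983, 31319, 31727, 31907, 32423, 33599, 33923, 36299, 36677, 36979, 37879, 38639, 39719,
   39829, 40253, 40507, 40829, 41183, 42667, 43037, 45949, 46957, 49459, 49613]

/-- the odd primes below 8000 -/
def listP : List ℕ :=
  [3, 5, 7, 11, 13, 17, 19, 23, 29, 31, 37, 41, 43, 47, 53, 59, 61, 67, 71, 73, 79, 83, 89,
   97, 101, 103, 107, 109, 113, 127, 131, 137, 139, 149, 151, 157, 163, 167, 173, 179, 181,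
   191, 193, 197, 199, 211, 223, 227, 229, 233, 239, 241, 251, 257, 263, 269, 271, 277, 281,
   283, 293, 307, 311, 313, 317, 331, 337, 347, 349, 353, 359, 367, 373, 379, 383, 389, 397,
   401, 409, 419, 421, 431, 433, 439, 443, 449, 457, 461, 463, 467, 479, 487, 491, 499, 503,
   509, 521, 523, 541, 547, 557, 563, 569, 571, 577, 587, 593, 599, 601, 607, 613, 617, 619,
   631, 641, 643, 647, 653, 659, 661, 673, 677, 683, 691, 701, 709, 719, 727, 733, 739, 743,
   751, 757, 761, 769, 773, 787, 797, 809, 811, 821, 823, 827, 829, 839, 853, 857, 859, 863,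
   877, 881, 883, 887, 907, 911, 919, 929, 937, 941, 947, 953, 967, 971, 977, 983, 991, 997,
   1009, 1013, 1019, 1021, 1031, 1033, 1039, 1049, 1051, 1061, 1063, 1069, 1087, 1091, 1093,
   1097, 1103, 1109, 1117, 1123, 1129, 1151, 1153, 1163, 1171, 1181, 1187, 1193, 1201, 1213,
   1217, 1223, 1229, 1231, 1237, 1249, 1259, 1277, 1279, 1283, 1289, 1291, 1297, 1301, 1303,
   1307, 1319, 1321, 1327, 1361, 1367, 1373, 1381, 1399, 1409, 1423, 1427, 1429, 1433, 1439,
   1447, 1451, 1453, 1459, 1471, 1481, 1483, 1487, 1489, 1493, 1499, 1511, 1523, 1531, 1543,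
   1549, 1553, 1559, 1567, 1571, 1579, 1583, 1597, 1601, 1607, 1609, 1613, 1619, 1621, 1627,
   1637, 1657, 1663, 1667, 1669, 1693, 1697, 1699, 1709, 1721, 1723, 1733, 1741, 1747, 1753,
   1759, 1777, 1783, 1787, 1789, 1801, 1811, 1823, 1831, 1847, 1861, 1867, 1871, 1873, 1877,
   1879, 1889, 1901, 1907, 1913, 1931, 1933, 1949, 1951, 1973, 1979, 1987, 1993, 1997, 1999,
   2003, 2011, 2017, 2027, 2029, 2039, 2053, 2063, 2069, 2081, 2083, 2087, 2089, 2099, 2111,
   2113, 2129, 2131, 2137, 2141, 2143, 2153, 2161, 2179, 2203, 2207, 2213, 2221, 2237, 2239,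
   2243, 2251, 2267, 2269, 2273, 2281, 2287, 2293, 2297, 2309, 2311, 2333, 2339, 2341, 2347,
   2351, 2357, 2371, 2377, 2381, 2383, 2389, 2393, 2399, 2411, 2417, 2423, 2437, 2441, 2447,
   2459, 2467, 2473, 2477, 2503, 2521, 2531, 2539, 2543, 2549, 2551, 2557, 2579, 2591, 2593,
   2609, 2617, 2621, 2633, 2647, 2657, 2659, 2663, 2671, 2677, 2683, 2687, 2689, 2693, 2699,
   2707, 2711, 2713, 2719, 2729, 2731, 2741, 2749, 2753, 2767, 2777, 2789, 2791, 2797, 2801,
   2803, 2819, 2833, 2837, 2843, 2851, 2857, 2861, 2879, 2887, 2897, 2903, 2909, 2917, 2927,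
   2939, 2953, 2957, 2963, 2969, 2971, 2999, 3001, 3011, 3019, 3023, 3037, 3041, 3049, 3061,
   3067, 3079, 3083, 3089, 3109, 3119, 3121, 3137, 3163, 3167, 3169, 3181, 3187, 3191, 3203,
   3209, 3217, 3221, 3229, 3251, 3253, 3257, 3259, 3271, 3299, 3301, 3307, 3313, 3319, 3323,
   3329, 3331, 3343, 3347, 3359, 3361, 3371, 3373, 3389, 3391, 3407, 3413, 3433, 3449, 3457,
   3461, 3463, 3467, 3469, 3491, 3499, 3511, 3517, 3527, 3529, 3533, 3539, 3541, 3547, 3557,
   3559, 3571, 3581, 3583, 3593, 3607, 3613, 3617, 3623, 3631, 3637, 3643, 3659, 3671, 3673,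
   3677, 3691, 3697, 3701, 3709, 3719, 3727, 3733, 3739, 3761, 3767, 3769, 3779, 3793, 3797,
   3803, 3821, 3823, 3833, 3847, 3851, 3853, 3863, 3877, 3881, 3889, 3907, 3911, 3917, 3919,
   3923, 3929, 3931, 3943, 3947, 3967, 3989, 4001, 4003, 4007, 4013, 4019, 4021, 4027, 4049,
   4051, 4057, 4073, 4079, 4091, 4093, 4099, 4111, 4127, 4129, 4133, 4139, 4153, 4157, 4159,
   4177, 4201, 4211, 4217, 4219, 4229, 4231, 4241, 4243, 4253, 4259, 4261, 4271, 4273, 4283,
   4289, 4297, 4327, 4337, 4339, 4349, 4357, 4363, 4373, 4391, 4397, 4409, 4421, 4423, 4441,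
   4447, 4451, 4457, 4463, 4481, 4483, 4493, 4507, 4513, 4517, 4519, 4523, 4547, 4549, 4561,
   4567, 4583, 4591, 4597, 4603, 4621, 4637, 4639, 4643, 4649, 4651, 4657, 4663, 4673, 4679,
   4691, 4703, 4721, 4723, 4729, 4733, 4751, 4759, 4783, 4787, 4789, 4793, 4799, 4801, 4813,
   4817, 4831, 4861, 4871, 4877, 4889, 4903, 4909, 4919, 4931, 4933, 4937, 4943, 4951, 4957,
   4967, 4969, 4973, 4987, 4993, 4999, 5003, 5009, 5011, 5021, 5023, 5039, 5051, 5059, 5077,
   5081, 5087, 5099, 5101, 5107, 5113, 5119, 5147, 5153, 5167, 5171, 5179, 5189, 5197, 5209,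
   5227, 5231, 5233, 5237, 5261, 5273, 5279, 5281, 5297, 5303, 5309, 5323, 5333, 5347, 5351,
   5381, 5387, 5393, 5399, 5407, 5413, 5417, 5419, 5431, 5437, 5441, 5443, 5449, 5471, 5477,
   5479, 5483, 5501, 5503, 5507, 5519, 5521, 5527, 5531, 5557, 5563, 5569, 5573, 5581, 5591,
   5623, 5639, 5641, 5647, 5651, 5653, 5657, 5659, 5669, 5683, 5689, 5693, 5701, 5711, 5717,
   5737, 5741, 5743, 5749, 5779, 5783, 5791, 5801, 5807, 5813, 5821, 5827, 5839, 5843, 5849,
   5851, 5857, 5861, 5867, 5869, 5879, 5881, 5897, 5903, 5923, 5927, 5939, 5953, 5981, 5987,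
   6007, 6011, 6029, 6037, 6043, 6047, 6053, 6067, 6073, 6079, 6089, 6091, 6101, 6113, 6121,
   6131, 6133, 6143, 6151, 6163, 6173, 6197, 6199, 6203, 6211, 6217, 6221, 6229, 6247, 6257,
   6263, 6269, 6271, 6277, 6287, 6299, 6301, 6311, 6317, 6323, 6329, 6337, 6343, 6353, 6359,
   6361, 6367, 6373, 6379, 6389, 6397, 6421, 6427, 6449, 6451, 6469, 6473, 6481, 6491, 6521,
   6529, 6547, 6551, 6553, 6563, 6569, 6571, 6577, 6581, 6599, 6607, 6619, 6637, 6653, 6659,
   6661, 6673, 6679, 6689, 6691, 6701, 6703, 6709, 6719, 6733, 6737, 6761, 6763, 6779, 6781,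
   6791, 6793, 6803, 6823, 6827, 6829, 6833, 6841, 6857, 6863, 6869, 6871, 6883, 6899, 6907,
   6911, 6917, 6947, 6949, 6959, 6961, 6967, 6971, 6977, 6983, 6991, 6997, 7001, 7013, 7019,
   7027, 7039, 7043, 7057, 7069, 7079, 7103, 7109, 7121, 7127, 7129, 7151, 7159, 7177, 7187,
   7193, 7207, 7211, 7213, 7219, 7229, 7237, 7243, 7247, 7253, 7283, 7297, 7307, 7309, 7321,
   7331, 7333, 7349, 7351, 7369, 7393, 7411, 7417, 7433, 7451, 7457, 7459, 7477, 7481, 7487,
   7489, 7499, 7507, 7517, 7523, 7529, 7537, 7541, 7547, 7549, 7559, 7561, 7573, 7577, 7583,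
   7589, 7591, 7603, 7607, 7621, 7639, 7643, 7649, 7669, 7673, 7681, 7687, 7691, 7699, 7703,
   7717, 7723, 7727, 7741, 7753, 7757, 7759, 7789, 7793, 7817, 7823, 7829, 7841, 7853, 7867,
   7873, 7877, 7879, 7883, 7901, 7907, 7919, 7927, 7933, 7937, 7949, 7951, 7963, 7993]


theorem prime_main : ∀ q ∈ listMain, q.Prime ∧ q ≠ 2 := by
  have h : listMain.all (chk 50) = true := by decide +kernel
  intro q hq
  exact chk_sound (List.all_eq_true.1 h q hq)

theorem prime_three : ∀ q ∈ listThree, q.Prime ∧ q ≠ 2 := by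
  have h : listThree.all (chk 4400) = true := by decide +kernel
  intro q hq
  exact chk_sound (List.all_eq_true.1 h q hq)

theorem prime_five : ∀ q ∈ listFive, q.Prime ∧ q ≠ 2 := by
  have h : listFive.all (chk 230) = true := by decide +kernel
  intro q hq
  exact chk_sound (List.all_eq_true.1 h q hq)

theorem prime_P : ∀ q ∈ listP, q.Prime ∧ q ≠ 2 := by
  have h : listP.all (chk 90) = true := by decide +kernel
  intro q hq
  exact chk_sound (List.all_eq_true.1 h q hq)

/-- strictly increasing check -/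
def incr : List ℕ → Bool
  | [] => true
  | [_] => true
  | a :: b :: l => decide (a < b) && incr (b :: l)

theorem incr_lt : ∀ (l : List ℕ) (a : ℕ), incr (a :: l) = true → ∀ x ∈ l, a < x
  | [], a, _, x, hx => by simp at hx
  | b :: l, a, h, x, hx => by
    simp only [incr, Bool.and_eq_true, decide_eq_true_eq] at h
    rcases List.mem_cons.1 hx with rfl | hx
    · exact h.1
    · exact h.1.trans (incr_lt l b h.2 x hx)

theorem incr_nodup : ∀ (l : List ℕ), incr l = true → l.Nodup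
  | [], _ => List.nodup_nil
  | [a], _ => by simp
  | a :: b :: l, h => by
    have h' := h
    simp only [incr, Bool.and_eq_true, decide_eq_true_eq] at h'
    refine List.nodup_cons.2 ⟨fun hm => ?_, incr_nodup (b :: l) h'.2⟩
    exact absurd (incr_lt _ _ h a hm) (lt_irrefl a)

theorem run_three : 10 ^ 269 ≤ (go 3 listThree 1 0).1 ∧ 100 ≤ (go 3 listThree 1 0).2 := by
  decide +kernel

theorem run_five : 10 ^ 269 ≤ (go 5 listFive 1 0).1 ∧ 100 ≤ (go 5 listFive 1 0).2 := by
  decide +kernel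

theorem run_main : 10 ^ 269 ≤ (go 0 listMain 1 0).1 ∧ 100 ≤ (go 0 listMain 1 0).2 := by
  decide +kernel

theorem run_P : ∀ p0 ∈ listMain, p0 ≠ 3 → p0 ≠ 5 →
    10 ^ 269 ≤ (go p0 listP 1 0).1 ∧ 100 ≤ (go p0 listP 1 0).2 := by
  decide +kernel

theorem bound {n p0 : ℕ} (hn : 0 < n)
    (H : ∀ p : ℕ, p.Prime → p ≠ 2 → p ≠ p0 → (p - 1) ∣ 4 * n → p ∣ n) :
    10 ^ 269 ≤ n ∧ 100 ≤ n.primeFactors.card := by
  by_cases h3 : p0 = 3
  · subst h3
    exact key hn H listThree prime_three (incr_nodup _ (by decide +kernel)) run_three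
  by_cases h5 : p0 = 5
  · subst h5
    exact key hn H listFive prime_five (incr_nodup _ (by decide +kernel)) run_five
  by_cases hm : p0 ∈ listMain
  · exact key hn H listP prime_P (incr_nodup _ (by decide +kernel)) (run_P p0 hm h3 h5)
  · refine key hn H listMain prime_main (incr_nodup _ (by decide +kernel)) ?_
    rw [go_congr listMain 1 0 (fun q hq e => hm (by rw [← e]; exact hq))
      (fun q hq e => (prime_main q hq).1.ne_zero e)]
    exact run_main

theorem toda_finite {n : ℕ} (hn : 0 < n) : {p | IsToda n p}.Finite := by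
  refine (Set.finite_Iic (4 * n + 1)).subset fun p hp => ?_
  have := Nat.le_of_dvd (by omega) hp.2.2.1
  simp only [Set.mem_Iic]
  omega

/-- Every positive integer `n` which has fewer than 100 distinct prime factors, or which is below
`10 ^ 269`, has at least two Toda primes. -/
theorem result (n : ℕ) (hn : 0 < n) (h : n.primeFactors.card < 100 ∨ n < 10 ^ 269) :
    2 ≤ {p | IsToda n p}.ncard := by
  by_contra hlt
  have h1 : {p | IsToda n p}.ncard ≤ 1 := by omega
  have h2 := (Set.ncard_le_one (toda_finite hn)).1 h1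
  obtain ⟨p0, hp0⟩ : ∃ p0, ∀ p, IsToda n p → p = p0 := by
    by_cases he : ∃ p0, IsToda n p0
    · obtain ⟨p0, hp0⟩ := he
      exact ⟨p0, fun p hp => h2 p hp p0 hp0⟩
    · exact ⟨0, fun p hp => absurd ⟨p, hp⟩ he⟩
  have hb := bound (p0 := p0) hn (by
    intro p hp hp2 hne hd
    by_contra hpn
    refine hne (hp0 p ⟨hp, hp2, hd, ?_⟩)
    rw [Nat.Prime.coprime_iff_not_dvd hp]
    intro hd2
    have h4 : p ∣ 4 * n := hd2.trans (Nat.div_dvd_of_dvd hd)
    rcases (Nat.Prime.dvd_mul hp).1 h4 with h5 | h5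
    · have h6 : p ∣ 2 ^ 2 := by simpa using h5
      exact hp2 ((Nat.prime_dvd_prime_iff_eq hp Nat.prime_two).1 (hp.dvd_of_dvd_pow h6))
    · exact hpn h5)
  omega

end Pool.Agent.Results.MP_2f389f_nt.ManyPrimeFactors
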